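import Pool.Agent.Helper45.T5g.Nb5

/-!
# T5g, line Nb5: regularity of the last windows (one element), and the final statement
-/

set_option autoImplicit false

namespace Pool.Agent.Helper45.T5g

open Finset Pool.Agent.Helper27.T4 Pool.Agent.Helper37.T5g
open Pool.Agent.Helper5.ET (pr own pr_prime mask bb)
open Pool.Agent.Helper30.T5g (pz QF QT RT dz PZ ez NL BP)
open Pool.Agent.Helper84.T5g Pool.Agent.Helper57.T5
open Pool.Agent.Helper22.SL (PrG PrG_mono PrG_false)
open Pool.Agent.Helper45.T5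
open Pool.Agent.Helper22.NEARg (Bw RegE wW lam)
open Pool.Agent.Helper44.T5g (Zw mem_Zw dvd_Zw)

variable {m : Sq} {k l : ℕ}

theorem Un_pos (m : Sq) (k l : ℕ) : 0 < Un m k l := Nat.mul_pos (Jn_pos _ _ _ _) (LQ_pos _ _ _ _)

/-- below all static levels the windows are the window set -/
theorem Bw_topB (m : Sq) (k l : ℕ) (w : Key → ℕ) : Bw m k l (rL m k l) w = Vw m k l w := by
  have hpos := Un_pos m k l
  have hU : Jn m k (sL m k l) l * LL (QQ m k (sL m k l)) (rL m k l) = Un m k l := rfl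
  ext b
  unfold Bw
  rw [mem_image, hU]
  constructor
  · rintro ⟨u, hu, rfl⟩
    obtain ⟨y, -, v, hv, rfl⟩ := mem_Zw.1 hu
    rw [Finset.Ico_self, Finset.sum_empty, zero_add, Nat.mul_div_cancel_left _ hpos]
    exact hv
  · intro hb
    refine ⟨Un m k l * b, mem_Zw.2 ⟨fun _ _ => 0, fun t h1 h2 => ?_, b, hb, ?_⟩, ?_⟩
    · omega
    · rw [Finset.Ico_self, Finset.sum_empty, zero_add]
    · rw [Nat.mul_div_cancel_left _ hpos]

/-- a window set with one element is regular -/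
theorem regE_top (m : Sq) (k l : ℕ) (w : Key → ℕ) : RegE m k l (rL m k l) w := by
  refine ⟨1, fun f n => Nat.coprime_one_right _, ?_⟩
  rw [Bw_topB]
  intro g hg _ a L c
  have h1 : ((Vw m k l w).filter fun b => a ≤ b ∧ b < a + L ∧ b % g = c % g).card ≤ 1 := by
    refine (card_filter_le _ _).trans ?_
    unfold Vw
    rw [card_singleton]
  have h1' : ((((Vw m k l w).filter fun b => a ≤ b ∧ b < a + L ∧ b % g = c % g).card : ℕ) : ℝ)
      ≤ 1 := by exact_mod_cast h1
  refine h1'.trans ?_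
  have h2 : (1 : ℝ) ≤ Real.exp ((wW m k l (rL m k l) : ℝ) / 10000) :=
    Real.one_le_exp (by positivity)
  have h3 : (0 : ℝ) ≤ (L : ℝ) / (g * Real.exp ((wW m k l (rL m k l) : ℝ) * lam / 2 -
      (wW m k l (rL m k l) : ℝ) / 10000)) := by positivity
  nlinarith

/-- **Nb5, last windows** -/
theorem reg_rand (m : Sq) (k : ℕ) : ∃ K0 : ℕ, ∀ l, K0 ≤ l →
    ∀ K, keysOf m k l ⊆ K →
    PrG (Mk m k) K (fun w => ¬ RegE m k l (rL m k l) w)
      (Real.exp (-(wW m k l (rL m k l) : ℝ))) :=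
  ⟨0, fun l _ _ _ => PrG_false (fun _ _ h => h (regE_top m k l _)) (Real.exp_pos _).le⟩

/-- **Nb5**: regularity of all windows -/
theorem reg_all (m : Sq) (k : ℕ) (hm : m.Ok)
    [hQ : Pool.Agent.Helper30.T5g.BigQ m k] :
    ∃ K0 : ℕ, ∀ l i, K0 ≤ l → 1 ≤ i → i ≤ rL m k l →
    ∀ K, keysOf m k l ⊆ K →
    Pool.Agent.Helper22.SL.PrG (Mk m k) K (fun w => ¬ RegE m k l i w)
      (Real.exp (-(wW m k l i : ℝ))) := by
  obtain ⟨l0, h0⟩ := reg_static hm k
  obtain ⟨l1', h1⟩ := reg_rand m k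
  refine ⟨max l0 l1', fun l i hl _ hi K hK => ?_⟩
  rcases Nat.eq_or_lt_of_le hi with h | h
  · subst h
    exact h1 l ((le_max_right _ _).trans hl) K hK
  · refine PrG_mono (fun r _ h => h) ?_ (h0 l i ((le_max_left _ _).trans hl) h K hK)
    apply Real.exp_le_exp.2
    have : (0 : ℝ) ≤ wW m k l i := Nat.cast_nonneg _
    linarith

end Pool.Agent.Helper45.T5g
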