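import Pool.Agent.Helper45.T5g.Nb5V

/-!
# T5g, line Nb6: the size of the windows
-/

set_option autoImplicit false

namespace Pool.Agent.Helper45.T5g

open Finset Pool.Agent.Helper27.T4 Pool.Agent.Helper37.T5g
open Pool.Agent.Helper5.ET (pr own pr_prime mask bb)
open Pool.Agent.Helper30.T5g (pz QF QT RT dz PZ ez NL BP)
open Pool.Agent.Helper84.T5g Pool.Agent.Helper57.T5
open Pool.Agent.Helper22.NEARg (Bw RegE wW lam)
open Pool.Agent.Helper44.T5g (Zw mem_Zw dvd_Zw)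

variable {m : Sq} {k l : ℕ}

theorem Bw_lt_RT (hm : m.Ok) (k : ℕ)
    [hQ : Pool.Agent.Helper30.T5g.BigQ m k] : ∃ l0 : ℕ, ∀ l ≥ l0, ∀ i, 1 ≤ i → i ≤ rL m k l →
    ∀ w : Key → ℕ, ∀ b ∈ Bw m k l i w, b < 17 * RT m k (sL m k l - i) := by
  obtain ⟨l1, h1⟩ := Pool.Agent.Helper27.T5g.exists_dbl hm k
  obtain ⟨l2, h2⟩ := Pool.Agent.Helper27.T5g.exists_bL hm k 0
  refine ⟨max l1 l2, fun l hl i hi1 hi w b hb => ?_⟩
  obtain ⟨hbb, -⟩ := h2 l ((le_max_right _ _).trans hl)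
  obtain ⟨hdb, hNL⟩ := h1 l ((le_max_left _ _).trans hl)
  have hdb' : ∀ t < rL m k l, 2 * (FF m k l t * LL (QQ m k (sL m k l)) t) ≤
      FF m k l (t + 1) * LL (QQ m k (sL m k l)) (t + 1) := hdb
  obtain ⟨y, hy, v, hv, hbv⟩ := isWinB_of_Bw hm hi hb
  obtain ⟨h, rfl⟩ : ∃ h, i = h + 1 := ⟨i - 1, by omega⟩
  have hdeep := deep_le hm hbb hNL (h := h) (by omega)
  have h3 := sum_cs_le hdb' w (fun _ => 0) y (rL m k l) le_rfl
  have h4 : ∑ t ∈ Ico (h + 1) (rL m k l), cs m k l t w 0 (y t) ≤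
      ∑ t ∈ range (rL m k l), cs m k l t w 0 (y t) := by
    apply Finset.sum_le_sum_of_subset
    intro t ht
    rw [mem_Ico] at ht
    rw [mem_range]
    exact ht.2
  have hv2 : v < 16 * RT m k (bL m k l) := by
    unfold Vw at hv
    rw [mem_singleton] at hv
    have h0 : 0 < RT m k (bL m k l) := Pool.Agent.Helper30.T5g.RT_pos _ _ _
    omega
  have h5 : Un m k l * v < Un m k l * (16 * RT m k (bL m k l)) :=
    Nat.mul_lt_mul_of_pos_left hv2 (Un_pos m k l)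
  have h6 : ∑ t ∈ Ico (h + 1) (rL m k l), cs m k l t w ((fun _ => 0 : ℕ → JF → ℕ) t) (y t) =
    ∑ t ∈ Ico (h + 1) (rL m k l), cs m k l t w 0 (y t) := rfl
  rw [h6] at hbv
  have h3' : ∑ t ∈ range (rL m k l), cs m k l t w 0 (y t) ≤
      2 * (FF m k l (rL m k l) * LL (QQ m k (sL m k l)) (rL m k l)) := h3
  have h7 : Jn m k (sL m k l) l * LL (QQ m k (sL m k l)) (h + 1) * b <
      Jn m k (sL m k l) l * LL (QQ m k (sL m k l)) (h + 1) *
        (17 * RT m k (sL m k l - (h + 1))) := by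
    rw [hbv]
    have h8 : 17 * RT m k (sL m k l - (h + 1)) *
          (Jn m k (sL m k l) l * LL (QQ m k (sL m k l)) (h + 1)) =
        Jn m k (sL m k l) l * LL (QQ m k (sL m k l)) (h + 1) *
        (17 * RT m k (sL m k l - (h + 1))) := mul_comm _ _
    omega
  exact Nat.lt_of_mul_lt_mul_left h7

/-- **Nb6** -/
theorem Bw_lt (m : Sq) (k : ℕ) (hm : m.Ok)
    [hQ : Pool.Agent.Helper30.T5g.BigQ m k] : ∃ K0 : ℕ, ∀ l i, K0 ≤ l → 1 ≤ i → i ≤ rL m k l →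
    ∀ w : Key → ℕ, ∀ b ∈ Bw m k l i w,
      (b : ℝ) < Real.exp ((wW m k l i : ℝ) * lam + (wW m k l i : ℝ) / 10000) := by
  have hm0 := hm
  obtain ⟨l0, h0⟩ := Bw_lt_RT hm0 k
  refine ⟨l0, fun l i hl hi1 hi w b hb => ?_⟩
  have h1 := h0 l hl i hi1 hi w b hb
  have hRT := Pool.Agent.Helper30.T5g.RT_le hm0 k (sL m k l - i)
  have hwW : wW m k l i = SS m (sL m k l - i) := rfl
  rw [hwW]
  set N := SS m (sL m k l - i) with hN
  have hpow : Real.exp ((N : ℝ) * lam) = ((10 : ℝ) ^ 6) ^ N := by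
    rw [Real.exp_nat_mul]
    congr 1
    exact Real.exp_log (by norm_num)
  have hbig : 2 ^ 40 ≤ N :=
    (Nat.pow_le_pow_right (by norm_num) (by norm_num : 40 ≤ 250)).trans (SS_ge hm0 _)
  have hbigr : (2 : ℝ) ^ 40 ≤ N := by exact_mod_cast hbig
  have h17 : (17 : ℝ) ≤ Real.exp ((N : ℝ) / 10000) := by
    have := Real.add_one_le_exp ((N : ℝ) / 10000)
    linarith
  have h2 : (b : ℝ) < 17 * ((10 : ℝ) ^ 6) ^ N := by
    have h3 : (b : ℝ) < ((17 * RT m k (sL m k l - i) : ℕ) : ℝ) := by exact_mod_cast h1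
    have h4 : ((17 * RT m k (sL m k l - i) : ℕ) : ℝ) ≤ ((17 * (10 ^ 6) ^ N : ℕ) : ℝ) := by
      exact_mod_cast Nat.mul_le_mul_left 17 hRT
    refine (h3.trans_le h4).trans_le (le_of_eq ?_)
    push_cast
    ring
  refine h2.trans_le ?_
  rw [Real.exp_add, hpow, mul_comm]
  gcongr

end Pool.Agent.Helper45.T5g
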