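import Pool.Agent.Helper45.T5g.WinB
import Pool.Agent.Helper27.T5g.Range
import Pool.Agent.Helper45.T5.RegT5a

/-!
# T5g: regularity of the windows of the static levels, uniformly in the outer key
-/

set_option autoImplicit false

namespace Pool.Agent.Helper45.T5g

open Finset Pool.Agent.Helper27.T4 Pool.Agent.Helper37.T5g
open Pool.Agent.Helper5.ET (pr own pr_prime mask bb)
open Pool.Agent.Helper30.T5g (pz QF QT RT dz PZ ez NL BP)
open Pool.Agent.Helper84.T5g Pool.Agent.Helper57.T5 Pool.Agent.Helper22.SL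
open Pool.Agent.Helper39.T5 Pool.Agent.Helper45.T5
open Pool.Agent.Helper27.T5 (gw)
open Pool.Agent.Helper22.HW (Side)

variable {m : Sq} {k l : ℕ}

/-- every family of a late triple is smaller than the product of the two others -/
theorem exists_balancedB (hm : m.Ok) (k : ℕ) : ∃ t0 : ℕ, ∀ t ≥ t0,
    pz k t 0 ^ zf m k t 0 ≤ pz k t 1 ^ zf m k t 1 * pz k t 2 ^ zf m k t 2 ∧
    pz k t 1 ^ zf m k t 1 ≤ pz k t 0 ^ zf m k t 0 * pz k t 2 ^ zf m k t 2 ∧
    pz k t 2 ^ zf m k t 2 ≤ pz k t 0 ^ zf m k t 0 * pz k t 1 ^ zf m k t 1 := by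
  obtain ⟨t0, h0⟩ := Pool.Agent.Helper30.T5g.exists_pow_le_QF hm k
  refine ⟨t0 + 1, fun t ht => ?_⟩
  obtain ⟨u, rfl⟩ : ∃ u, t = u + 1 := ⟨t - 1, by omega⟩
  have hS := Pool.Agent.Helper30.T5g.SS_le_two_Sg hm u
  have hS2 := SS_ge hm (u + 1)
  have hbig : 2 ^ 20 ≤ Sg m (u + 1) := by
    have : (2 : ℕ) ^ 21 ≤ 2 ^ 250 := Nat.pow_le_pow_right (by norm_num) (by norm_num)
    have : (2 : ℕ) ^ 21 = 2 * 2 ^ 20 := by norm_num
    omega
  have hd0 := Pool.Agent.Helper30.T5g.eight_mul_dz hm (u + 1) 0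
  have hd1 := Pool.Agent.Helper30.T5g.eight_mul_dz hm (u + 1) 1
  have hd2 := Pool.Agent.Helper30.T5g.eight_mul_dz hm (u + 1) 2
  have hg0 : gw 0 = 3 := rfl
  have hg1 : gw 1 = 3 := rfl
  have hg2 : gw 2 = 2 := rfl
  rw [hg0] at hd0
  rw [hg1] at hd1
  rw [hg2] at hd2
  have key : ∀ a b c : Fin 3, ∀ nb nc : ℕ, 10001 * nb ≤ 10000 * dz m (u + 1) b →
      10001 * nc ≤ 10000 * dz m (u + 1) c → dz m (u + 1) a ≤ nb + nc →
      pz k (u + 1) a ^ zf m k (u + 1) a ≤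
        pz k (u + 1) b ^ zf m k (u + 1) b * pz k (u + 1) c ^ zf m k (u + 1) c := by
    intro a b c nb nc hnb hnc ha
    have f1 : QF m k (u + 1) a ≤ (10 ^ 6) ^ dz m (u + 1) a :=
      Pool.Agent.Helper30.T5g.QF_le m k (u + 1) a
    have f2 := h0 (u + 1) (by omega) b nb hnb
    have f3 := h0 (u + 1) (by omega) c nc hnc
    show QF m k (u + 1) a ≤ QF m k (u + 1) b * QF m k (u + 1) c
    calc QF m k (u + 1) a ≤ (10 ^ 6) ^ dz m (u + 1) a := f1
      _ ≤ (10 ^ 6) ^ (nb + nc) := Nat.pow_le_pow_right (by norm_num) ha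
      _ = (10 ^ 6) ^ nb * (10 ^ 6) ^ nc := pow_add _ _ _
      _ ≤ _ := Nat.mul_le_mul f2 f3
  refine ⟨key 0 1 2 (10000 * dz m (u + 1) 1 / 10001) (10000 * dz m (u + 1) 2 / 10001)
      (by omega) (by omega) (by omega),
    key 1 0 2 (10000 * dz m (u + 1) 0 / 10001) (10000 * dz m (u + 1) 2 / 10001)
      (by omega) (by omega) (by omega),
    key 2 0 1 (10000 * dz m (u + 1) 0 / 10001) (10000 * dz m (u + 1) 1 / 10001)
      (by omega) (by omega) (by omega)⟩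

theorem deep_le (hm : m.Ok) {h : ℕ} (hl : bb 0 ≤ mL m k l)
    (h2 : 2 * (FF m k l (rL m k l) * LL (QQ m k (sL m k l)) (rL m k l)) ≤ NL m k l)
    (hh : h < rL m k l) :
    2 * (FF m k l (rL m k l) * LL (QQ m k (sL m k l)) (rL m k l)) +
      Un m k l * (16 * RT m k (bL m k l)) ≤
        17 * RT m k (sL m k l - (h + 1)) *
          (Jn m k (sL m k l) l * LL (QQ m k (sL m k l)) (h + 1)) := by
  have h3 := Pool.Agent.Helper27.T5g.Un_mul_RT hm hl
  have h4 := Pool.Agent.Helper27.T5g.Jn_mul_RT (Pool.Agent.Helper27.T5g.cpl_self hm hl)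
  obtain ⟨-, -, -, -, -, g6⟩ := Pool.Agent.Helper27.T5g.rL_bounds hm k l
  have h5 := Pool.Agent.Helper27.T5g.LL_mul_RT m k (s := sL m k l) (r := h + 1) (by omega)
  calc 2 * (FF m k l (rL m k l) * LL (QQ m k (sL m k l)) (rL m k l)) +
      Un m k l * (16 * RT m k (bL m k l))
      ≤ NL m k l + 16 * (Un m k l * RT m k (bL m k l)) := by
        refine Nat.add_le_add h2 (le_of_eq (by ring))
    _ = 17 * NL m k l := by rw [h3]; ring
    _ = 17 * (Jn m k (sL m k l) l *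
          (LL (QQ m k (sL m k l)) (h + 1) * RT m k (sL m k l - (h + 1)))) := by rw [h5, h4]
    _ ≤ _ := le_of_eq (by ring)

theorem SS_succ_le_sq (hm : m.Ok) (u : ℕ) : SS m (u + 1) ≤ SS m u ^ 2 := by
  rw [SS_succ, sq]
  refine Nat.mul_le_mul_left _ ?_
  unfold SS
  refine Nat.pow_le_pow_right (by norm_num) ?_
  have h1 := hm.qa u
  omega

theorem reg_sizeB {C n W Zm : ℕ} {P : ℝ} (hP : 0 ≤ P) (hZ : Zm ≤ C * (10 ^ 6) ^ n)
    (hW : W ≤ n ^ 4) (hn : 13600 * C * P ≤ n) :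
    2 * (Zm : ℝ) * (68 * ((100 * (W : ℝ)) * P * ((1 : ℕ) : ℝ) ^ 2)) ≤ (10 ^ 6) ^ (2 * n) := by
  have h1 : (Zm : ℝ) ≤ C * (10 ^ 6) ^ n := by exact_mod_cast hZ
  have h2 : (W : ℝ) ≤ (n : ℝ) ^ 4 := by exact_mod_cast hW
  have h3 : (n : ℝ) ≤ 2 ^ n := by exact_mod_cast (Nat.lt_two_pow_self (n := n)).le
  have h4 : (n : ℝ) ^ 5 ≤ (10 ^ 6) ^ n := by
    calc (n : ℝ) ^ 5 ≤ (2 ^ n) ^ 5 := by gcongr
      _ = 32 ^ n := by rw [← pow_mul, mul_comm, pow_mul]; norm_num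
      _ ≤ _ := by gcongr; norm_num
  calc 2 * (Zm : ℝ) * (68 * ((100 * (W : ℝ)) * P * ((1 : ℕ) : ℝ) ^ 2))
      = 13600 * Zm * W * P := by push_cast; ring
    _ ≤ 13600 * (C * (10 ^ 6) ^ n) * (n : ℝ) ^ 4 * P := by gcongr
    _ = (13600 * C * P) * (n : ℝ) ^ 4 * (10 ^ 6) ^ n := by ring
    _ ≤ (n : ℝ) * (n : ℝ) ^ 4 * (10 ^ 6) ^ n := by gcongr
    _ = (n : ℝ) ^ 5 * (10 ^ 6) ^ n := by ring
    _ ≤ (10 ^ 6) ^ n * (10 ^ 6) ^ n := by gcongr
    _ = _ := by rw [← pow_add]; congr 1; ring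

theorem pz_ne_two (k t : ℕ) (i : Fin 3) : pz k t i ≠ 2 := by
  have := Pool.Agent.Helper30.T5g.million_lt_pz k t i
  omega

/-- **THE WINDOWS ARE REGULAR** (T5b), uniformly in the outer key: one event for each late state
`l`, each level `h` and each finite set `Os` of outer keys of the level `h` -/
theorem reg_genB (hm : m.Ok) (k : ℕ)
    [hQ : Pool.Agent.Helper30.T5g.BigQ m k] : ∃ l0 : ℕ, ∀ l ≥ l0, ∀ h < rL m k l,
    ∀ Os : Finset (JF → ℕ), ∀ K : Finset Key,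
    (∀ o ∈ Os, ∀ i, ∀ y ∈ Ys m k l h, (Ss m k l h o).key i y ∈ K) →
    PrG (Mk m k) K (fun w => ¬ ∀ o : ℕ → JF → ℕ, o h ∈ Os → ∀ B : Finset ℕ,
      (∀ b ∈ B, IsWinB m k l h w o b) →
      RegSet B (QQ m k (sL m k l) h) ((10 ^ 6) ^ (2 * SS m (sL m k l - (h + 1))))
        (Real.sqrt (QQ m k (sL m k l) h)))
      (Os.card * Real.exp (-(30 * (SS m (sL m k l - h + 1) : ℝ)))) := by
  have hm0 := hm
  obtain ⟨t1, h1⟩ := exists_balancedB hm0 k
  obtain ⟨l1', h1'⟩ := Pool.Agent.Helper27.T5g.exists_dbl hm0 k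
  obtain ⟨C2, hC2⟩ : ∃ C2 : ℕ, 13600 * (17 : ℕ) * (4 * (BP k : ℝ) ^ 2) ≤ C2 := exists_nat_ge _
  obtain ⟨l2', h2'⟩ := Pool.Agent.Helper27.T5g.exists_bL hm0 k (t1 + C2)
  refine ⟨l1' + l2', fun l hl h hh Os K hK => ?_⟩
  obtain ⟨hbb, hb⟩ := h2' l (by omega)
  obtain ⟨hdb, hNL⟩ := h1' l (by omega)
  obtain ⟨g1, g2, g3, g4, g5, g6⟩ := Pool.Agent.Helper27.T5g.rL_bounds hm0 k l
  obtain ⟨b0, b1, b2⟩ := h1 (sL m k l - h) (by omega)
  -- the size `W` and the size `n` of the deeper windows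
  obtain ⟨u, hu⟩ : ∃ u, sL m k l - (h + 1) = u := ⟨_, rfl⟩
  have hu1 : sL m k l - h = u + 1 := by omega
  have hu2 : sL m k l - h + 1 = u + 2 := by omega
  rw [hu2]
  have hWpos : 1 ≤ SS m (u + 2) := SS_pos m _
  have hWr : (1 : ℝ) ≤ SS m (u + 2) := by exact_mod_cast hWpos
  have hW4 : SS m (u + 2) ≤ SS m u ^ 4 := by
    have a1 := SS_succ_le_sq hm u
    have a2 := SS_succ_le_sq hm (u + 1)
    calc SS m (u + 2) ≤ SS m (u + 1) ^ 2 := a2
      _ ≤ (SS m u ^ 2) ^ 2 := Nat.pow_le_pow_left a1 2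
      _ = SS m u ^ 4 := by rw [← pow_mul]
  -- one outer key
  have hone : ∀ o ∈ Os, PrG (Mk m k) K (fun w => ¬ Pool.Agent.Helper41.T5.RegOK (Ys m k l h)
      (fun y => (Ss m k l h o).cd (pz_prime k (sL m k l - h)) (pz_inj k (sL m k l - h)) w y /
        (Ss m k l h o).F) (NN (pz k (sL m k l - h)) (Ss m k l h o).e)
      (68 * (100 * (SS m (u + 2) : ℝ) * ((pz k (sL m k l - h) 1 : ℝ) + pz k (sL m k l - h) 2) ^ 2 *
        ((1 : ℕ) : ℝ) ^ 2))) (Real.exp (-(30 * (SS m (u + 2) : ℝ)))) := by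
    intro o ho
    have hreg := Pool.Agent.Helper41.T5.reg_code (Mk := Mk m k) (pz_prime k (sL m k l - h))
      (pz_ne_two k (sL m k l - h)) (pz_inj k (sL m k l - h)) (Ss m k l h o)
      (Ss_ok (by omega) (by omega) o)
      (fun i => Pool.Agent.Helper99.T5g.T1c (pz k (sL m k l - h) i) (zf m k (sL m k l - h) i)) K
      (fun i => Pool.Agent.Helper73.T5.sfam_primes (pz_prime k _ i) (pz_ne_two k _ i) _ _
        (fun x hx => mem_T1.1 (Pool.Agent.Helper99.T5g.T1c_subset _ _ hx))) (hK o ho) (Ys m k l h) (Finset.Subset.refl _) 1 le_rfl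
      (by rw [one_mul]; exact b0) (by rw [one_mul]; exact b1) (by rw [one_mul]; exact b2)
      (T := 100 * (SS m (u + 2) : ℝ)) (by linarith)
    have hQ : NN (pz k (sL m k l - h)) (Ss m k l h o).e ≤ (10 ^ 6) ^ SS m (u + 2) := by
      have e1 : NN (pz k (sL m k l - h)) (Ss m k l h o).e = QT m k (sL m k l - h) := rfl
      rw [e1, hu1]
      refine (Pool.Agent.Helper30.T5g.QT_le hm0 k (u + 1)).trans ?_
      refine Nat.pow_le_pow_right (by norm_num) ?_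
      exact (Sg_le m (u + 1)).trans (SS_mono m (by omega))
    exact PrG_mono (fun _ _ h => h) (reg_fail hQ hWpos) hreg
  have hall := PrG_exists Os hone
  refine PrG_mono ?_ (le_of_eq ?_) hall
  · intro r _ hn
    by_contra hcon
    push Not at hcon
    refine hn fun o ho B hB => ?_
    have hr2 := hcon (o h) ho
    have hdb' : ∀ t < rL m k l, 2 * (FF m k l t * LL (QQ m k (sL m k l)) t) ≤
      FF m k l (t + 1) * LL (QQ m k (sL m k l)) (t + 1) := hdb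
    have hF : ∀ t ≤ rL m k l, Jn m k (sL m k l) l ∣ FF m k l t := fun t ht =>
      Jn_dvd m k (sL m k l) (Pool.Agent.Helper27.T5g.ef_bounds hm0 k l t).1.le
    have hform := fun b hb' => isWinB_form hh hF hdb' (deep_le hm0 hbb hNL hh) (hB b hb')
    obtain ⟨c, hc⟩ := hF (h + 1) (by omega)
    have hc0 : 0 < FF m k l (h + 1) / Jn m k (sL m k l) l := by
      have := FF_pos m k l (h + 1)
      rw [hc] at this ⊢
      rw [Nat.mul_div_cancel_left _ (Jn_pos m k (sL m k l) l)]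
      rcases Nat.eq_zero_or_pos c with h5 | h5
      · rw [h5, mul_zero] at this
        omega
      · exact h5
    have hset := regSet_of (by positivity) (NN_pos (pz_prime k (sL m k l - h)) _) hc0 hr2 hform
    have hP : ((pz k (sL m k l - h) 1 : ℝ) + pz k (sL m k l - h) 2) ^ 2 ≤ 4 * (BP k : ℝ) ^ 2 := by
      have a1 : (pz k (sL m k l - h) 1 : ℝ) ≤ BP k := by
        exact_mod_cast Pool.Agent.Helper30.T5g.pz_le k (sL m k l - h) 1
      have a2 : (pz k (sL m k l - h) 2 : ℝ) ≤ BP k := by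
        exact_mod_cast Pool.Agent.Helper30.T5g.pz_le k (sL m k l - h) 2
      have a3 : (0 : ℝ) ≤ pz k (sL m k l - h) 1 := Nat.cast_nonneg _
      have a4 : (0 : ℝ) ≤ pz k (sL m k l - h) 2 := Nat.cast_nonneg _
      nlinarith
    have hnC : (C2 : ℝ) ≤ SS m u := by
      exact_mod_cast Pool.Agent.Helper27.T5g.exists_SS_ge hm0 C2 u (by omega)
    refine RegSet.le hset ?_ (Real.sqrt_nonneg _)
    rw [hu]
    refine reg_sizeB (C := 17) (by positivity) ?_ hW4 ?_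
    · exact Nat.mul_le_mul_left _ (Pool.Agent.Helper30.T5g.RT_le hm0 k u)
    · refine le_trans ?_ (hC2.trans hnC)
      gcongr
  · rw [Finset.sum_const, nsmul_eq_mul]

end Pool.Agent.Helper45.T5g
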