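import Pool.Agent.Helper45.T5g.RegB
import Pool.Agent.Helper37.T5g.Prod
import Pool.Agent.Helper29.T5g.BufInst
import Pool.Agent.Helper99.T5g.OkF

/-!
# T5g: the number of outer keys; regularity for all outer keys of a state
-/

set_option autoImplicit false

namespace Pool.Agent.Helper45.T5g

open Finset Pool.Agent.Helper27.T4 Pool.Agent.Helper27.T5g Pool.Agent.Helper27.T5b Pool.Agent.Helper37.T5g
open Pool.Agent.Helper5.ET (pr own pr_prime mask bb era)
open Pool.Agent.Helper30.T5g (pz QF QT RT dz PZ ez NL BP)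
open Pool.Agent.Helper84.T5g Pool.Agent.Helper57.T5 Pool.Agent.Helper22.SL
open Pool.Agent.Helper39.T5 Pool.Agent.Helper45.T5
open Pool.Agent.Helper27.T5 (gw)

variable {m : Sq} {k l : ℕ}

/-- the number of buffer digits below `l` is small -/
class BufL (m : Sq) (k l : ℕ) : Prop where
  out : ct (ins m k) own (ex m k) (Sum.inr none) l ≤ SS m (sL m k l + 1)

/-- number of buffer digits below a late state -/
theorem exists_bufL (hm : m.Ok) (qc : ∀ t, m.q t = m.q 0) (kc : ∀ t, m.kap t = m.kap 0) (k : ℕ) :
    ∃ l0, ∀ l ≥ l0, BufL m k l := by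
  obtain ⟨l0, h0⟩ := Pool.Agent.Helper29.T5g.exists_buf hm qc kc k (C := 1)
    (Nat.one_le_pow 300 2 (by norm_num))
  refine ⟨l0, fun l hl => ⟨?_⟩⟩
  have h1 := h0 l hl
  rw [one_mul] at h1
  refine h1.trans (SS_mono m ?_)
  have h2 := lv_le_sv m k (l1 (ins m k) l)
  exact h2.trans (Nat.le_succ _)

theorem bufL_of_okF (hm : Pool.Agent.Helper99.T5g.OkF m) : ∃ l0, ∀ l ≥ l0, BufL m m.k l :=
  exists_bufL hm.toOk hm.qc hm.kc m.k

open Classical in
/-- the outer keys of the level `t` -/
noncomputable def OK (m : Sq) (k l t : ℕ) : Finset (JF → ℕ) := (XJ m k l).image (okey m k l t)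

theorem card_OK (hm : m.Ok) (_hl : bb 0 ≤ mL m k l) (_hs : 1 ≤ sL m k l) (t : ℕ)
    [hbuf : BufL m k l] :
    ((OK m k l t).card : ℝ) ≤ Real.exp (28 * (SS m (sL m k l - t + 1) : ℝ)) := by
  classical
  have hm0 := hm
  rcases Nat.eq_zero_or_pos t with ht | ht
  · subst ht
    rw [Nat.sub_zero]
    -- a box
    set c : JF → ℕ := fun i => if i.isRight then pJ k (sL m k l) i ^ aJ m k (sL m k l) l i else 1
      with hc
    have hsub : OK m k l 0 ⊆ Fintype.piFinset (fun i : JF => if i ∈ okeyF m k l then
        (if aJ m k (sL m k l) l i = 0 then {1}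
          else T1 (pJ k (sL m k l) i) (aJ m k (sL m k l) l i)) else {0}) := by
      intro o ho
      unfold OK at ho
      rw [mem_image] at ho
      obtain ⟨x, hx, rfl⟩ := ho
      rw [Fintype.mem_piFinset]
      intro i
      unfold XJ at hx
      rw [Fintype.mem_piFinset] at hx
      have h1 := hx i
      unfold okey maskJ
      rw [if_pos rfl]
      by_cases hi : i ∈ okeyF m k l
      · simp only [if_pos hi]
        exact h1
      · simp only [if_neg hi]
        exact mem_singleton_self 0
    have h1 : (OK m k l 0).card ≤ ∏ i : JF, c i := by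
      refine (card_le_card hsub).trans ?_
      rw [Fintype.card_piFinset]
      refine Finset.prod_le_prod' fun i _ => ?_
      by_cases hi : i ∈ okeyF m k l
      · rw [if_pos hi]
        have hR : i.isRight := by
          unfold okeyF at hi
          split_ifs at hi
          · exact (mem_filter.1 hi).2
          · rw [mem_singleton] at hi
            rw [hi]
            rfl
        rw [hc]
        simp only [if_pos hR]
        split_ifs with ha
        · rw [ha, pow_zero, card_singleton]
        · refine (card_filter_le _ _).trans ?_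
          rw [card_range]
      · rw [if_neg hi, card_singleton, hc]
        simp only
        split_ifs
        · exact Nat.one_le_iff_ne_zero.2 (pow_pos (pJ_prime k _ i).pos _).ne'
        · exact le_rfl
    have h2 : ∏ i : JF, c i = 1000039 ^ ct (ins m k) own (ex m k) (Sum.inr none) l *
        ∏ f : Fin 3, pz k (sL m k l + 1) f ^
          ct (ins m k) own (ex m k) (Sum.inr (some (sL m k l + 1, f))) l := by
      rw [Fintype.prod_sum_type, Fin.prod_univ_succ (n := 3)]
      have e1 : ∏ a : Fin 3, c (Sum.inl a) = 1 := by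
        refine Finset.prod_eq_one fun a _ => ?_
        rw [hc]
        simp
      rw [e1, one_mul]
      rfl
    have h3 : ∏ f : Fin 3, pz k (sL m k l + 1) f ^
          ct (ins m k) own (ex m k) (Sum.inr (some (sL m k l + 1, f))) l ≤
        (10 ^ 6) ^ SS m (sL m k l + 1) := by
      calc ∏ f : Fin 3, pz k (sL m k l + 1) f ^
          ct (ins m k) own (ex m k) (Sum.inr (some (sL m k l + 1, f))) l
          ≤ QT m k (sL m k l + 1) := by
            unfold QT QF
            refine Finset.prod_le_prod' fun f _ => ?_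
            exact Nat.pow_le_pow_right (Pool.Agent.Helper30.T5g.pz_pos _ _ _)
              (ct_some_le_zf hm0 _ f l)
        _ ≤ (10 ^ 6) ^ Sg m (sL m k l + 1) := Pool.Agent.Helper30.T5g.QT_le hm0 k _
        _ ≤ _ := Nat.pow_le_pow_right (by norm_num) (Sg_le m _)
    have h4 := hbuf.out
    have h5 : (OK m k l 0).card ≤ 1000039 ^ SS m (sL m k l + 1) *
        (10 ^ 6) ^ SS m (sL m k l + 1) := by
      rw [h2] at h1
      refine h1.trans (Nat.mul_le_mul ?_ h3)
      exact Nat.pow_le_pow_right (by norm_num) h4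
    generalize SS m (sL m k l + 1) = W at *
    have h6 : ((OK m k l 0).card : ℝ) ≤ (1000039 : ℝ) ^ W * (10 ^ 6) ^ W := by exact_mod_cast h5
    refine h6.trans ?_
    have h7 : (1000039 : ℝ) ≤ Real.exp 14 := by
      have e1 : Real.exp 14 = Real.exp 1 ^ 14 := by rw [← Real.exp_nat_mul]; norm_num
      rw [e1]
      have e2 := Real.exp_one_gt_d9
      calc (1000039 : ℝ) ≤ 2.7182818283 ^ 14 := by norm_num
        _ ≤ _ := by gcongr
    calc (1000039 : ℝ) ^ W * (10 ^ 6) ^ W ≤ Real.exp 14 ^ W * Real.exp 14 ^ W := by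
          gcongr
          exact le_trans (by norm_num) h7
      _ = Real.exp (28 * W) := by
          rw [← Real.exp_nat_mul, ← Real.exp_add]
          congr 1
          ring
  · have h1 : OK m k l t ⊆ {0} := by
      intro o ho
      unfold OK at ho
      rw [mem_image] at ho
      obtain ⟨x, hx, rfl⟩ := ho
      unfold okey
      rw [if_neg (by omega)]
      exact mem_singleton_self 0
    have h2 := card_le_card h1
    rw [card_singleton] at h2
    have h3 : ((OK m k l t).card : ℝ) ≤ 1 := by exact_mod_cast h2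
    refine h3.trans (Real.one_le_exp (by positivity))

/-- **regularity of the windows for all outer keys of a state** -/
theorem reg_okey (hm : m.Ok) (qc : ∀ t, m.q t = m.q 0) (kc : ∀ t, m.kap t = m.kap 0) (k : ℕ)
    [hQ : Pool.Agent.Helper30.T5g.BigQ m k] : ∃ l0 : ℕ, ∀ l ≥ l0, ∀ h < rL m k l, ∀ K : Finset Key,
    (∀ x ∈ XJ m k l, ∀ i, ∀ y ∈ Ys m k l h, (Ss m k l h (okey m k l h x)).key i y ∈ K) →
    PrG (Mk m k) K (fun w => ¬ ∀ x ∈ XJ m k l, ∀ B : Finset ℕ,
      (∀ b ∈ B, IsWinB m k l h w (fun t => okey m k l t x) b) →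
      RegSet B (QQ m k (sL m k l) h) ((10 ^ 6) ^ (2 * SS m (sL m k l - (h + 1))))
        (Real.sqrt (QQ m k (sL m k l) h)))
      (Real.exp (-(2 * (SS m (sL m k l - h + 1) : ℝ)))) := by
  classical
  have hm0 := hm
  obtain ⟨l0, h0⟩ := reg_genB hm k
  obtain ⟨l1', h1⟩ := Pool.Agent.Helper27.T5g.exists_bL hm0 k 1
  obtain ⟨l2', h2⟩ := exists_bufL hm qc kc k
  refine ⟨max l0 (max l1' l2'), fun l hl h hh K hK => ?_⟩
  have hl0 := (le_max_left _ _).trans hl
  have hl12 := (le_max_right _ _).trans hl
  obtain ⟨hbb, hb⟩ := h1 l ((le_max_left _ _).trans hl12)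
  have hbuf := h2 l ((le_max_right _ _).trans hl12)
  obtain ⟨g1, g2, g3, g4, g5, g6⟩ := Pool.Agent.Helper27.T5g.rL_bounds hm0 k l
  refine PrG_mono ?_ ?_ (h0 l hl0 h hh (OK m k l h) K ?_)
  · intro r _ hn h2
    refine hn fun x hx B hB => h2 (fun t => okey m k l t x) ?_ B hB
    exact mem_image_of_mem _ hx
  · have hc := card_OK (k := k) hm hbb (by omega) h
    calc ((OK m k l h).card : ℝ) * Real.exp (-(30 * (SS m (sL m k l - h + 1) : ℝ)))
        ≤ Real.exp (28 * (SS m (sL m k l - h + 1) : ℝ)) *
          Real.exp (-(30 * (SS m (sL m k l - h + 1) : ℝ))) := by gcongr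
      _ = _ := by
          rw [← Real.exp_add]
          congr 1
          ring
  · intro o ho i y hy
    unfold OK at ho
    rw [mem_image] at ho
    obtain ⟨x, hx, rfl⟩ := ho
    exact hK x hx i y hy

end Pool.Agent.Helper45.T5g
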