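import Pool.Agent.Helper45.T5g.Nb7
import Pool.Agent.Helper30.T5g.BigQF

/-!
# T5g: the lines `regAll`, `bwLt`, `ppReg` of the block NEARg
-/

set_option autoImplicit false

namespace Pool.Agent.Helper45.T5g

open Pool.Agent.Helper37.T5g Pool.Agent.Helper99.T5g
open Pool.Agent.Helper22.NEARg (RegAllS BwLtS PpRegS)

theorem regAllG (m : Sq) (hm : OkF m) : RegAllS m m.k :=
  reg_all m m.k hm.toOk (hQ := Pool.Agent.Helper30.T5g.bigQ_of_okF hm)

theorem bwLtG (m : Sq) (hm : OkF m) : BwLtS m m.k :=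
  Bw_lt m m.k hm.toOk (hQ := Pool.Agent.Helper30.T5g.bigQ_of_okF hm)

theorem ppRegG (m : Sq) (hm : OkF m) : PpRegS m m.k :=
  pp_reg m m.k hm.toOk (hQB := Pool.Agent.Helper30.T5g.bigQ_of_okF hm)

end Pool.Agent.Helper45.T5g
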