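import Pool.Agent.Helper45.T5g.S7
import Pool.Agent.Helper30.T5g.BigQF

/-!
# T5g: the line `ppReg` of the block NEARsg
-/

set_option autoImplicit false

namespace Pool.Agent.Helper45.T5g

open Pool.Agent.Helper37.T5g Pool.Agent.Helper99.T5g

theorem ppRegSG (m : Sq) (hm : OkF m) : Pool.Agent.Helper22.NEARsg.PpRegS m m.k :=
  pp_regS m m.k hm.toOk (hQB := Pool.Agent.Helper30.T5g.bigQ_of_okF hm)

end Pool.Agent.Helper45.T5g
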