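import Pool.Agent.Helper45.T5g.JnSize
import Pool.Agent.Helper45.T5.RegWin

/-!
# T5g: the windows of the static levels, with the outer key
-/

set_option autoImplicit false

namespace Pool.Agent.Helper45.T5g

open Finset Pool.Agent.Helper27.T4 Pool.Agent.Helper27.T5b Pool.Agent.Helper37.T5g
open Pool.Agent.Helper5.ET (pr own pr_prime mask)
open Pool.Agent.Helper30.T5g (pz QF QT RT dz PZ ez NL BP)
open Pool.Agent.Helper84.T5g Pool.Agent.Helper57.T5 Pool.Agent.Helper22.SL
open Pool.Agent.Helper39.T5 Pool.Agent.Helper45.T5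
open Pool.Agent.Helper22.HW (Side)

/-- the windows below the static levels `< h`; `o t` is the outer key of the level `t` -/
def IsWinB (m : Sq) (k l h : ℕ) (w : Key → ℕ) (o : ℕ → JF → ℕ) (b : ℕ) : Prop :=
  ∃ y : ℕ → Fin 3 → ℕ, (∀ t, h ≤ t → t < rL m k l → y t ∈ Ys m k l t) ∧ ∃ v ∈ Vw m k l w,
    Jn m k (sL m k l) l * LL (QQ m k (sL m k l)) h * b =
      ∑ t ∈ Ico h (rL m k l), cs m k l t w (o t) (y t) + Un m k l * v

/-! ## the codes -/

theorem QQ_pos (m : Sq) (k s t : ℕ) : 0 < QQ m k s t := Pool.Agent.Helper30.T5g.QT_pos _ _ _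

theorem LQ_pos (m : Sq) (k s t : ℕ) : 0 < LL (QQ m k s) t := LL_pos (fun i _ => QQ_pos m k s i)

theorem FF_pos (m : Sq) (k l t : ℕ) : 0 < FF m k l t := Jn_pos _ _ _ _

theorem cs_dvd (m : Sq) (k l t : ℕ) (w : Key → ℕ) (o : JF → ℕ) (y : Fin 3 → ℕ) :
    FF m k l (t + 1) * LL (QQ m k (sL m k l)) t ∣ cs m k l t w o y :=
  Pool.Agent.Helper22.HW.dvd_fc _ _ _ _ _

theorem cs_lt (m : Sq) (k l t : ℕ) (w : Key → ℕ) (o : JF → ℕ) (y : Fin 3 → ℕ) :
    cs m k l t w o y < FF m k l (t + 1) * LL (QQ m k (sL m k l)) (t + 1) := by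
  have h := Pool.Agent.Helper22.HW.fc_lt (pz_prime k (sL m k l - t)) (pz_inj k (sL m k l - t))
    (Ss m k l t o).F
    (Nat.mul_pos (FF_pos m k l (t + 1)) (LQ_pos m k (sL m k l) t)) (Ss m k l t o).e
    (fun i => Lg (pz k (sL m k l - t) i) ((Ss m k l t o).e i) (y i) + (Ss m k l t o).rho w i y)
  rw [LL_succ, ← mul_assoc]
  exact h

theorem sum_cs_le {m : Sq} {k l : ℕ} {r : ℕ}
    (hdb : ∀ t < r, 2 * (FF m k l t * LL (QQ m k (sL m k l)) t) ≤
      FF m k l (t + 1) * LL (QQ m k (sL m k l)) (t + 1)) (w : Key → ℕ) (o : ℕ → JF → ℕ)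
    (y : ℕ → Fin 3 → ℕ) :
    ∀ n ≤ r, ∑ t ∈ range n, cs m k l t w (o t) (y t) ≤
      2 * (FF m k l n * LL (QQ m k (sL m k l)) n) := by
  intro n
  induction n with
  | zero => intro _; simp
  | succ n ih =>
    intro hr
    rw [sum_range_succ]
    have h1 := ih (by omega)
    have h2 := hdb n (by omega)
    have h3 := cs_lt m k l n w (o n) (y n)
    omega

/-! ## the form of a window -/

theorem isWinB_form {m : Sq} {k l h Zm : ℕ} (hh : h < rL m k l)
    (hF : ∀ t ≤ rL m k l, Jn m k (sL m k l) l ∣ FF m k l t)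
    (hdb : ∀ t < rL m k l, 2 * (FF m k l t * LL (QQ m k (sL m k l)) t) ≤
      FF m k l (t + 1) * LL (QQ m k (sL m k l)) (t + 1))
    (hZ : 2 * (FF m k l (rL m k l) * LL (QQ m k (sL m k l)) (rL m k l)) +
      Un m k l * (16 * RT m k (bL m k l)) ≤
        Zm * (Jn m k (sL m k l) l * LL (QQ m k (sL m k l)) (h + 1)))
    {w : Key → ℕ} {o : ℕ → JF → ℕ} {b : ℕ} (hb : IsWinB m k l h w o b) :
    ∃ y ∈ Ys m k l h, ∃ z < Zm,
      b = FF m k l (h + 1) / Jn m k (sL m k l) l *
          ((Ss m k l h (o h)).cd (pz_prime k (sL m k l - h)) (pz_inj k (sL m k l - h)) w y /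
            (Ss m k l h (o h)).F) +
        NN (pz k (sL m k l - h)) (Ss m k l h (o h)).e * z := by
  obtain ⟨y, hy, v, hv, hbv⟩ := hb
  have hN := Jn_pos m k (sL m k l) l
  have hL := LQ_pos m k (sL m k l) (h + 1)
  -- the deeper part
  obtain ⟨D, hD⟩ : ∃ D, D = ∑ t ∈ Ico (h + 1) (rL m k l), cs m k l t w (o t) (y t) +
    Un m k l * v := ⟨_, rfl⟩
  have hdvd : Jn m k (sL m k l) l * LL (QQ m k (sL m k l)) (h + 1) ∣ D := by
    rw [hD]
    refine dvd_add (Finset.dvd_sum fun t ht => ?_) ?_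
    · rw [mem_Ico] at ht
      refine dvd_trans ?_ (cs_dvd m k l t w (o t) (y t))
      exact Nat.mul_dvd_mul (hF (t + 1) (by omega)) (LL_dvd _ ht.1)
    · refine dvd_mul_of_dvd_left ?_ _
      exact Nat.mul_dvd_mul_left _ (LL_dvd _ (by omega))
  obtain ⟨z, hz⟩ := hdvd
  refine ⟨y h, hy h le_rfl hh, z, ?_, ?_⟩
  · -- the bound
    have h1 := sum_cs_le hdb w o y (rL m k l) le_rfl
    have h2 : ∑ t ∈ Ico (h + 1) (rL m k l), cs m k l t w (o t) (y t) ≤
        ∑ t ∈ range (rL m k l), cs m k l t w (o t) (y t) := by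
      apply Finset.sum_le_sum_of_subset
      intro t ht
      rw [mem_Ico] at ht
      rw [mem_range]
      exact ht.2
    have hv2 : v < 16 * RT m k (bL m k l) := by
      unfold Vw at hv
      rw [mem_singleton] at hv
      have h0 : 0 < RT m k (bL m k l) := Pool.Agent.Helper30.T5g.RT_pos _ _ _
      omega
    have hU : 0 < Un m k l := Nat.mul_pos hN (LQ_pos _ _ _ _)
    have h3 : Un m k l * v < Un m k l * (16 * RT m k (bL m k l)) :=
      Nat.mul_lt_mul_of_pos_left hv2 hU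
    have h7 : D < Zm * (Jn m k (sL m k l) l * LL (QQ m k (sL m k l)) (h + 1)) := by
      rw [hD]
      omega
    rw [hz, mul_comm] at h7
    exact Nat.lt_of_mul_lt_mul_right h7
  · obtain ⟨c, hc⟩ := hF (h + 1) (by omega)
    have hc1 : FF m k l (h + 1) / Jn m k (sL m k l) l = c := by
      rw [hc, Nat.mul_div_cancel_left _ hN]
    rw [hc1]
    refine win_form (pz_prime k (sL m k l - h)) (pz_inj k (sL m k l - h)) (Ss m k l h (o h)) w
      (N := Jn m k (sL m k l) l * LL (QQ m k (sL m k l)) h)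
      (Nat.mul_pos hN (LQ_pos _ _ _ _)) ?_ ?_
    · show FF m k l (h + 1) * LL (QQ m k (sL m k l)) h = _
      rw [hc]
      ring
    · rw [hbv, Finset.sum_eq_sum_Ico_succ_bot hh, add_assoc, ← hD, hz]
      have e1 : cs m k l h w (o h) (y h) = (Ss m k l h (o h)).cd (pz_prime k (sL m k l - h))
        (pz_inj k (sL m k l - h)) w (y h) := rfl
      rw [e1]
      congr 1
      have e2 : NN (pz k (sL m k l - h)) (Ss m k l h (o h)).e = QQ m k (sL m k l) h := rfl
      rw [e2, LL_succ]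
      ring

/-! ## the keys -/

theorem LQ_cop {m : Sq} {k s : ℕ} {t : ℕ} (ht : t < s) (htk : t < k + 3) (f : Fin 3) :
    (LL (QQ m k s) t).Coprime (pz k (s - t) f) := by
  unfold LL
  refine Nat.Coprime.prod_left fun i hi => ?_
  rw [mem_range] at hi
  unfold QQ QT
  refine Nat.Coprime.prod_left fun g _ => ?_
  unfold QF
  refine Nat.Coprime.pow_left _ ?_
  refine Pool.Agent.Helper30.T5g.coprime_pz (Or.inl ?_)
  exact (Pool.Agent.Helper30.T5g.mod_ne (by omega) (by omega)).symm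

theorem Jn_cop {m : Sq} {k s : ℕ} {t : ℕ} (htk : t + 1 < k + 3) (ht : t ≤ s) (l : ℕ) (f : Fin 3) :
    (Jn m k s l).Coprime (pz k (s - t) f) := by
  unfold Jn NN
  refine Nat.Coprime.prod_left fun i _ => Nat.Coprime.pow_left _ ?_
  rcases i with g | i
  · exact Pool.Agent.Helper30.T5g.coprime_pr_pz g k (s - t) f
  · refine Fin.cases ?_ (fun g => ?_) i
    · exact Pool.Agent.Helper30.T5g.coprime_buf_pz k (s - t) f
    · refine Pool.Agent.Helper30.T5g.coprime_pz (Or.inl ?_)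
      exact (Pool.Agent.Helper30.T5g.mod_ne (by omega) (by omega)).symm

theorem Ss_ok {m : Sq} {k l t : ℕ} (ht : t < sL m k l) (htk : t + 1 < k + 3) (o : JF → ℕ) :
    (Ss m k l t o).Ok rk3 (Mk m k) where
  pos := Nat.mul_pos (FF_pos m k l (t + 1)) (LQ_pos m k (sL m k l) t)
  cop i := Nat.Coprime.mul_left (Jn_cop htk ht.le _ _) (LQ_cop ht (by omega) i)
  ze i := le_rfl
  dep i y y' h := by
    show Key.S _ _ _ _ _ = Key.S _ _ _ _ _
    congr 1
    funext g
    unfold mask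
    by_cases hg : g ∈ univ.filter (fun g => g < i)
    · rw [if_pos hg, if_pos hg]
      rw [mem_filter] at hg
      exact h g hg.2
    · rw [if_neg hg, if_neg hg]
  inj i i' y y' h := by
    have h1 : Key.S l t i o (mask (univ.filter (fun g => g < i)) y) =
      Key.S l t i' o (mask (univ.filter (fun g => g < i')) y') := h
    rw [Key.S.injEq] at h1
    obtain ⟨-, -, h2, -, h3⟩ := h1
    refine ⟨h2, fun j hj => ?_⟩
    subst h2
    have h5 := congrFun h3 j
    unfold mask at h5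
    have h6 : j ∈ univ.filter (fun g => g < i) := by
      rw [mem_filter]
      exact ⟨mem_univ _, hj⟩
    rwa [if_pos h6, if_pos h6] at h5
  size i y := rfl

end Pool.Agent.Helper45.T5g
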