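import Pool.Agent.Helper84.T5g.Defs
import Pool.Agent.Helper37.T5g.Cnt
import Pool.Agent.Helper30.T5g.Front

/-!
# T5g: sizes of the products of the joint digits
-/

set_option autoImplicit false

namespace Pool.Agent.Helper45.T5g

open Finset Pool.Agent.Helper27.T4 Pool.Agent.Helper27.T5b Pool.Agent.Helper37.T5g
open Pool.Agent.Helper5.ET (pr own pr_prime)
open Pool.Agent.Helper30.T5g (pz QF QT RT dz PZ ez NL BP)
open Pool.Agent.Helper84.T5g

variable {m : Sq} {k s : ℕ}

theorem aJ_mono (m : Sq) (k s : ℕ) {y z : ℕ} (h : y ≤ z) (i : JF) : aJ m k s y i ≤ aJ m k s z i := by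
  unfold aJ
  rcases i with f | i
  · exact ct_mono _ h
  · refine Fin.cases ?_ (fun f => ?_) i
    · exact ct_mono _ h
    · exact ct_mono _ h

theorem Jn_dvd (m : Sq) (k s : ℕ) {y z : ℕ} (h : y ≤ z) : Jn m k s y ∣ Jn m k s z :=
  NN_dvd _ (aJ_mono m k s h)

theorem Jn_pos (m : Sq) (k s l : ℕ) : 0 < Jn m k s l := NN_pos (pJ_prime k s) _

/-- the main digits and the buffer digits in an interval -/
theorem ct_sum_le (m : Sq) (k : ℕ) {y z : ℕ} (h : y ≤ z) :
    ∑ f : Fin 3, ct (ins m k) own (ex m k) (Sum.inl f) z +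
        ct (ins m k) own (ex m k) (Sum.inr none) z ≤
      ∑ f : Fin 3, ct (ins m k) own (ex m k) (Sum.inl f) y +
        ct (ins m k) own (ex m k) (Sum.inr none) y + (z - y) := by
  induction z, h using Nat.le_induction with
  | base => omega
  | succ z hz ih =>
    have e : z + 1 - y = (z - y) + 1 := by omega
    rw [e]
    simp only [ct_succ, Fin.sum_univ_three] at ih ⊢
    cases h : ow (ins m k) own (ex m k) z with
    | inl f =>
      fin_cases f <;> simp at ih ⊢ <;> omega
    | inr o =>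
      rcases o with _ | o
      · simp at ih ⊢
        omega
      · simp at ih ⊢
        omega

/-- the newborn digits are rare -/
theorem nc_le_add (m : Sq) (k T : ℕ) {y z : ℕ} (h : y ≤ z) :
    nc m k T z ≤ nc m k T y + ((z - y) / Bq m T + 1) := by
  obtain ⟨q, hq⟩ : ∃ q, q = (z - y) / Bq m T := ⟨_, rfl⟩
  rw [← hq]
  by_contra hc
  push Not at hc
  have hB := Bq_pos m T
  have h1 : nc m k T z ≤ nn m k T := nc_le m k T z
  have h2 : gi m k T (nc m k T z) < z := (le_nc_iff (by omega) h1).1 le_rfl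
  have h3 : y ≤ gi m k T (nc m k T y + 1) := by
    by_contra h4
    push Not at h4
    have := (le_nc_iff (n := nc m k T y + 1) (by omega) (by omega)).2 h4
    omega
  obtain ⟨d, hd⟩ : ∃ d, nc m k T z = nc m k T y + 1 + d := ⟨nc m k T z - (nc m k T y + 1), by omega⟩
  have h5 : gi m k T (nc m k T y + 1) + d * Bq m T ≤ gi m k T (nc m k T z) := by
    rw [hd]
    unfold gi gy
    have h6 := (beg_strictMono (ins m k)).add_le_nat (d * Bq m T)
      (ut m T + (nc m k T y + 1) * Bq m T)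
    have e : d * Bq m T + (ut m T + (nc m k T y + 1) * Bq m T) =
      ut m T + (nc m k T y + 1 + d) * Bq m T := by ring
    rw [e] at h6
    omega
  have h7 : d * Bq m T ≤ z - y := by omega
  have h8 : d ≤ (z - y) / Bq m T := (Nat.le_div_iff_mul_le hB).2 h7
  rw [← hq] at h8
  omega

/-- **the ratio of two products of joint digits** -/
theorem Jn_le (hm : m.Ok) (hk : k ≤ s) {y z : ℕ} (h : y ≤ z) :
    Jn m k s z ≤ Jn m k s y * (1000039 ^ (z - y) * BP k ^ ((z - y) / Bq m (s + 1) + 1)) := by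
  have e1 : ∀ l, Jn m k s l = (∏ f : Fin 3, pr f ^ ct (ins m k) own (ex m k) (Sum.inl f) l) *
      (1000039 ^ ct (ins m k) own (ex m k) (Sum.inr none) l *
        ∏ f : Fin 3, pz k (s + 1) f ^ ct (ins m k) own (ex m k) (Sum.inr (some (s + 1, f))) l) := by
    intro l
    unfold Jn NN pJ aJ
    rw [Fintype.prod_sum_type, Fin.prod_univ_succ]
    rfl
  have hmain : ∀ f : Fin 3, pr f ^ ct (ins m k) own (ex m k) (Sum.inl f) z ≤
      pr f ^ ct (ins m k) own (ex m k) (Sum.inl f) y *
        1000039 ^ (ct (ins m k) own (ex m k) (Sum.inl f) z -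
          ct (ins m k) own (ex m k) (Sum.inl f) y) := by
    intro f
    have h1 := ct_mono (ins := ins m k) (mo := own) (ex := ex m k) (Sum.inl f) h
    obtain ⟨d, hd⟩ := Nat.exists_eq_add_of_le h1
    rw [hd, Nat.add_sub_cancel_left, pow_add]
    have : pr f ≤ 1000039 := (Pool.Agent.Helper30.T5g.pr_lt_buf f).le
    gcongr
  have hnew : ∀ f : Fin 3, pz k (s + 1) f ^ ct (ins m k) own (ex m k) (Sum.inr (some (s + 1, f))) z ≤
      pz k (s + 1) f ^ ct (ins m k) own (ex m k) (Sum.inr (some (s + 1, f))) y *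
        BP k ^ (ct (ins m k) own (ex m k) (Sum.inr (some (s + 1, f))) z -
          ct (ins m k) own (ex m k) (Sum.inr (some (s + 1, f))) y) := by
    intro f
    have h1 := ct_mono (ins := ins m k) (mo := own) (ex := ex m k) (Sum.inr (some (s + 1, f))) h
    obtain ⟨d, hd⟩ := Nat.exists_eq_add_of_le h1
    rw [hd, Nat.add_sub_cancel_left, pow_add]
    have : pz k (s + 1) f ≤ BP k := Pool.Agent.Helper30.T5g.pz_le k (s + 1) f
    gcongr
  have hs1 : ∀ f : Fin 3, ct (ins m k) own (ex m k) (Sum.inl f) y ≤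
      ct (ins m k) own (ex m k) (Sum.inl f) z := fun f => ct_mono _ h
  have hs2 : ct (ins m k) own (ex m k) (Sum.inr none) y ≤
      ct (ins m k) own (ex m k) (Sum.inr none) z := ct_mono _ h
  have hs3 : ∀ f : Fin 3, ct (ins m k) own (ex m k) (Sum.inr (some (s + 1, f))) y ≤
      ct (ins m k) own (ex m k) (Sum.inr (some (s + 1, f))) z := fun f => ct_mono _ h
  have hsum := ct_sum_le m k h
  have hnc := nc_le_add m k (s + 1) h
  have hc1 := sum_ct (k := k) hm (show k < s + 1 by omega) y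
  have hc2 := sum_ct (k := k) hm (show k < s + 1 by omega) z
  rw [Fin.sum_univ_three] at hc1 hc2
  rw [Fin.sum_univ_three, Fin.sum_univ_three] at hsum
  rw [e1 z, e1 y]
  obtain ⟨d, hd⟩ := Nat.exists_eq_add_of_le hs2
  have hprod1 : ∏ f : Fin 3, pr f ^ ct (ins m k) own (ex m k) (Sum.inl f) z ≤
      (∏ f : Fin 3, pr f ^ ct (ins m k) own (ex m k) (Sum.inl f) y) *
        1000039 ^ (∑ f : Fin 3, (ct (ins m k) own (ex m k) (Sum.inl f) z -
          ct (ins m k) own (ex m k) (Sum.inl f) y)) := by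
    rw [← Finset.prod_pow_eq_pow_sum, ← Finset.prod_mul_distrib]
    exact Finset.prod_le_prod' fun f _ => hmain f
  have hprod2 : ∏ f : Fin 3, pz k (s + 1) f ^ ct (ins m k) own (ex m k)
        (Sum.inr (some (s + 1, f))) z ≤
      (∏ f : Fin 3, pz k (s + 1) f ^ ct (ins m k) own (ex m k) (Sum.inr (some (s + 1, f))) y) *
        BP k ^ (∑ f : Fin 3, (ct (ins m k) own (ex m k) (Sum.inr (some (s + 1, f))) z -
          ct (ins m k) own (ex m k) (Sum.inr (some (s + 1, f))) y)) := by
    rw [← Finset.prod_pow_eq_pow_sum, ← Finset.prod_mul_distrib]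
    exact Finset.prod_le_prod' fun f _ => hnew f
  have hE1 : ∑ f : Fin 3, (ct (ins m k) own (ex m k) (Sum.inl f) z -
      ct (ins m k) own (ex m k) (Sum.inl f) y) + d ≤ z - y := by
    rw [Fin.sum_univ_three]
    have a0 := hs1 0
    have a1 := hs1 1
    have a2 := hs1 2
    omega
  have hE2 : ∑ f : Fin 3, (ct (ins m k) own (ex m k) (Sum.inr (some (s + 1, f))) z -
      ct (ins m k) own (ex m k) (Sum.inr (some (s + 1, f))) y) ≤ (z - y) / Bq m (s + 1) + 1 := by
    rw [Fin.sum_univ_three]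
    have a0 := hs3 0
    have a1 := hs3 1
    have a2 := hs3 2
    omega
  have hBP : 0 < BP k := Pool.Agent.Helper30.T5g.BP_pos k
  have hG1 : 1000039 ^ (∑ f : Fin 3, (ct (ins m k) own (ex m k) (Sum.inl f) z -
      ct (ins m k) own (ex m k) (Sum.inl f) y)) * 1000039 ^ d ≤ 1000039 ^ (z - y) := by
    rw [← pow_add]
    exact Nat.pow_le_pow_right (by norm_num) hE1
  have hG2 : BP k ^ (∑ f : Fin 3, (ct (ins m k) own (ex m k) (Sum.inr (some (s + 1, f))) z -
      ct (ins m k) own (ex m k) (Sum.inr (some (s + 1, f))) y)) ≤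
      BP k ^ ((z - y) / Bq m (s + 1) + 1) := Nat.pow_le_pow_right hBP hE2
  rw [hd, pow_add]
  generalize 1000039 ^ (∑ f : Fin 3, (ct (ins m k) own (ex m k) (Sum.inl f) z -
      ct (ins m k) own (ex m k) (Sum.inl f) y)) = A1 at *
  generalize BP k ^ (∑ f : Fin 3, (ct (ins m k) own (ex m k) (Sum.inr (some (s + 1, f))) z -
      ct (ins m k) own (ex m k) (Sum.inr (some (s + 1, f))) y)) = A2 at *
  generalize ∏ f : Fin 3, pr f ^ ct (ins m k) own (ex m k) (Sum.inl f) z = X1 at *
  generalize ∏ f : Fin 3, pr f ^ ct (ins m k) own (ex m k) (Sum.inl f) y = X2 at *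
  generalize ∏ f : Fin 3, pz k (s + 1) f ^ ct (ins m k) own (ex m k)
        (Sum.inr (some (s + 1, f))) z = Y1 at *
  generalize ∏ f : Fin 3, pz k (s + 1) f ^ ct (ins m k) own (ex m k)
        (Sum.inr (some (s + 1, f))) y = Y2 at *
  generalize 1000039 ^ ct (ins m k) own (ex m k) (Sum.inr none) y = Z at *
  generalize 1000039 ^ d = D at *
  generalize 1000039 ^ (z - y) = E at *
  generalize BP k ^ ((z - y) / Bq m (s + 1) + 1) = F at *
  calc X1 * (Z * D * Y1) ≤ (X2 * A1) * (Z * D * (Y2 * A2)) := by gcongr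
    _ = (X2 * (Z * Y2)) * ((A1 * D) * A2) := by ring
    _ ≤ (X2 * (Z * Y2)) * (E * F) := by gcongr

end Pool.Agent.Helper45.T5g
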