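import Pool.Agent.Helper22.NEARg.Defs
import Pool.Agent.Helper45.T5g.RegB
import Pool.Agent.Helper54.T5g.KeysOf

/-!
# T5g, line Nb5: regularity of the windows below the static levels
-/

set_option autoImplicit false

namespace Pool.Agent.Helper45.T5g

open Finset Pool.Agent.Helper27.T4 Pool.Agent.Helper37.T5g
open Pool.Agent.Helper5.ET (pr own pr_prime mask bb)
open Pool.Agent.Helper30.T5g (pz QF QT RT dz PZ ez NL BP)
open Pool.Agent.Helper84.T5g Pool.Agent.Helper57.T5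
open Pool.Agent.Helper22.SL (PrG PrG_mono)
open Pool.Agent.Helper45.T5
open Pool.Agent.Helper22.NEARg (Bw RegE wW lam)
open Pool.Agent.Helper44.T5g (Zw mem_Zw dvd_Zw)

variable {m : Sq} {k l : ℕ}

theorem isWinB_of_Bw (hm : m.Ok) {h b : ℕ} {w : Key → ℕ} (hh : h ≤ rL m k l)
    (hb : b ∈ Bw m k l h w) : IsWinB m k l h w (fun _ => 0) b := by
  unfold Bw at hb
  rw [mem_image] at hb
  obtain ⟨u, hu, rfl⟩ := hb
  have h1 := dvd_Zw hm hh hu
  obtain ⟨y, hy, v, hv, he⟩ := mem_Zw.1 hu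
  exact ⟨y, hy, v, hv, by rw [Nat.mul_div_cancel' h1, he]⟩

/-- **regularity of the windows below the level `h < rL`** -/
theorem reg_BwB (hm : m.Ok) (k : ℕ)
    [hQ : Pool.Agent.Helper30.T5g.BigQ m k] : ∃ l0 : ℕ, ∀ l ≥ l0, ∀ h < rL m k l,
    ∀ K : Finset Key, keysOf m k l ⊆ K →
    PrG (Mk m k) K (fun w => ¬ RegSet (Bw m k l h w) (QQ m k (sL m k l) h)
      ((10 ^ 6) ^ (2 * SS m (sL m k l - (h + 1)))) (Real.sqrt (QQ m k (sL m k l) h)))
      (Real.exp (-(30 * (SS m (sL m k l - h + 1) : ℝ)))) := by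
  obtain ⟨l0, h0⟩ := reg_genB hm k
  obtain ⟨l1', h1⟩ := Pool.Agent.Helper27.T5g.exists_bL hm k 0
  refine ⟨max l0 l1', fun l hl h hh K hK => ?_⟩
  obtain ⟨hbb, -⟩ := h1 l ((le_max_right _ _).trans hl)
  refine PrG_mono ?_ (le_of_eq ?_) (h0 l ((le_max_left _ _).trans hl) h hh {0} K ?_)
  · intro r _ hn h2
    exact hn (h2 (fun _ => 0) (mem_singleton_self _) _ fun b hb =>
      isWinB_of_Bw hm hh.le hb)
  · rw [card_singleton, Nat.cast_one, one_mul]
  · intro o ho i y hy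
    rw [mem_singleton] at ho
    subst ho
    exact hK (Pool.Agent.Helper54.T5g.Skey_mem hm hbb hh
      (fun j => Pool.Agent.Helper54.T5g.Bd_pos m k l) hy i)

theorem pJ_cop {s t : ℕ} (htk : t + 1 < k + 3) (ht : t ≤ s) (f : JF) (n : ℕ) :
    (pJ k s f ^ n).Coprime (QQ m k s t) := by
  refine Nat.Coprime.pow_left _ ?_
  unfold QQ QT
  refine Nat.Coprime.prod_right fun g _ => ?_
  unfold QF
  refine Nat.Coprime.pow_right _ ?_
  rcases f with g' | i
  · exact Pool.Agent.Helper30.T5g.coprime_pr_pz g' k (s - t) g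
  · refine Fin.cases ?_ (fun g' => ?_) i
    · exact Pool.Agent.Helper30.T5g.coprime_buf_pz k (s - t) g
    · refine Pool.Agent.Helper30.T5g.coprime_pz (Or.inl ?_)
      exact (Pool.Agent.Helper30.T5g.mod_ne (by omega) (by omega)).symm

theorem SS_ratio (hm : m.Ok) (u : ℕ) : 10 ^ 7 * SS m u ≤ SS m (u + 1) := by
  rw [SS_succ, mul_comm]
  refine Nat.mul_le_mul_left _ ?_
  have h1 := hm.q u
  calc (10 : ℕ) ^ 7 ≤ 2 ^ 24 := by norm_num
    _ ≤ 2 ^ (m.q u + 1) := Nat.pow_le_pow_right (by norm_num) (by omega)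

theorem regE_of_regSet (hm : m.Ok) (k : ℕ) : ∃ l0 : ℕ, ∀ l ≥ l0, ∀ i < rL m k l,
    ∀ w : Key → ℕ, RegSet (Bw m k l i w) (QQ m k (sL m k l) i)
      ((10 ^ 6) ^ (2 * SS m (sL m k l - (i + 1)))) (Real.sqrt (QQ m k (sL m k l) i)) →
    RegE m k l i w := by
  have hm0 := hm
  obtain ⟨M, hM⟩ : ∃ M : ℕ, 10000 * (3 * Real.log (BP k)) ≤ M := exists_nat_ge _
  obtain ⟨l0, h0⟩ := Pool.Agent.Helper27.T5g.exists_bL hm0 k M
  refine ⟨l0, fun l hl i hi w hreg => ?_⟩
  obtain ⟨hbb, hb⟩ := h0 l hl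
  obtain ⟨g1, g2, g3, g4, g5, g6⟩ := Pool.Agent.Helper27.T5g.rL_bounds hm0 k l
  obtain ⟨u, hu⟩ : ∃ u, sL m k l - (i + 1) = u := ⟨_, rfl⟩
  have hu1 : sL m k l - i = u + 1 := by omega
  have hW := SS_ratio hm u
  have hlam1 := Pool.Agent.Helper63.T5.lam_gt
  have hlam2 := Pool.Agent.Helper63.T5.lam_lt
  have hMu : M ≤ SS m u := by
    have h1 : u ≤ aa m u := (aa_strictMono m).le_apply
    have h2 : aa m u < 2 ^ aa m u := Nat.lt_two_pow_self
    have h3 : SS m u = 2 ^ aa m u := rfl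
    omega
  have hMr : (M : ℝ) ≤ SS m u := by exact_mod_cast hMu
  have hWr : (10 : ℝ) ^ 7 * SS m u ≤ SS m (u + 1) := by exact_mod_cast hW
  have hupos : (0 : ℝ) ≤ SS m u := Nat.cast_nonneg _
  have hW' : 10000000 * (SS m u : ℝ) ≤ SS m (u + 1) := by
    refine le_trans (le_of_eq ?_) hWr
    norm_num
  have hQpos : (0 : ℝ) < QQ m k (sL m k l) i := by exact_mod_cast QQ_pos m k (sL m k l) i
  have hwW : wW m k l i = SS m (u + 1) := by
    unfold wW
    rw [hu1]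
  refine ⟨QQ m k (sL m k l) i, fun f n => pJ_cop (by omega) (by omega) f n, ?_⟩
  rw [hwW]
  rw [hu] at hreg
  refine RegSet.width (RegSet.le hreg ?_ (Real.sqrt_nonneg _)) (Real.exp_pos _).le
      (Real.exp_pos _) ?_
  · rw [← Real.log_le_iff_le_exp (by positivity), Real.log_pow]
    have e3 : Real.log (10 ^ 6) = lam := rfl
    rw [e3]
    push_cast
    have e4 : lam * (SS m u : ℝ) ≤ 14 * SS m u := mul_le_mul_of_nonneg_right (by linarith) hupos
    have e5 : 2 * (SS m u : ℝ) * lam = 2 * (lam * SS m u) := by ring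
    rw [e5]
    linarith
  · -- the lower bound of the modulus
    have hQ := Pool.Agent.Helper30.T5g.le_QT_mul hm0 k (u + 1)
    have hQ' : ((10 : ℝ) ^ 6) ^ Sg m (u + 1) ≤ QT m k (u + 1) * (BP k : ℝ) ^ 3 := by
      exact_mod_cast hQ
    have hBP : (0 : ℝ) < BP k := by exact_mod_cast Pool.Agent.Helper30.T5g.BP_pos k
    have hQQ : QQ m k (sL m k l) i = QT m k (u + 1) := by
      unfold QQ
      rw [hu1]
    rw [hQQ] at hQpos ⊢
    have hlog := Real.log_le_log (by positivity) hQ'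
    have e3 : Real.log (((10 : ℝ) ^ 6) ^ Sg m (u + 1)) = Sg m (u + 1) * lam := Real.log_pow _ _
    rw [Real.log_mul hQpos.ne' (by positivity), e3, Real.log_pow] at hlog
    have hSg : (Sg m (u + 1) : ℝ) = SS m (u + 1) - SS m u := by
      have e : Sg m (u + 1) = SS m (u + 1) - SS m u := rfl
      rw [e, Nat.cast_sub (SS_mono m (Nat.le_succ u))]
    rw [hSg] at hlog
    rw [Real.sqrt_eq_rpow, Real.rpow_def_of_pos hQpos]
    apply Real.exp_le_exp.2
    push_cast at hlog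
    have e4 : lam * (SS m u : ℝ) ≤ 14 * SS m u := mul_le_mul_of_nonneg_right (by linarith) hupos
    have e5 : ((SS m (u + 1) : ℝ) - SS m u) * lam = SS m (u + 1) * lam - lam * SS m u := by ring
    rw [e5] at hlog
    linarith

/-- **Nb5, static windows** -/
theorem reg_static (hm : m.Ok) (k : ℕ)
    [hQ : Pool.Agent.Helper30.T5g.BigQ m k] : ∃ K0 : ℕ, ∀ l i, K0 ≤ l → i < rL m k l →
    ∀ K, keysOf m k l ⊆ K →
    PrG (Mk m k) K (fun w => ¬ RegE m k l i w) (Real.exp (-(30 * (wW m k l i : ℝ)))) := by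
  obtain ⟨l0, h0⟩ := reg_BwB hm k
  obtain ⟨l1', h1⟩ := regE_of_regSet hm k
  refine ⟨max l0 l1', fun l i hl hi K hK => ?_⟩
  refine PrG_mono (fun r _ hn h3 => hn (h1 l ((le_max_right _ _).trans hl) i hi _ h3)) ?_
    (h0 l ((le_max_left _ _).trans hl) i hi K hK)
  apply Real.exp_le_exp.2
  have h2 : (SS m (sL m k l - i) : ℝ) ≤ SS m (sL m k l - i + 1) := by
    exact_mod_cast SS_mono m (Nat.le_succ _)
  show _ ≤ -(30 * (SS m (sL m k l - i) : ℝ))
  linarith

end Pool.Agent.Helper45.T5g
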