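import Pool.Agent.Helper45.T5g.Nb7
import Pool.Agent.Helper63.T5g.SplitNum
import Pool.Agent.Helper39.T5g.SlInstS
import Pool.Agent.Helper22.NEARsg.Defs

/-!
# T5g, line S7: regular windows, across SPLIT
-/

set_option autoImplicit false

namespace Pool.Agent.Helper45.T5g

open Finset Pool.Agent.Helper27.T4 Pool.Agent.Helper37.T5g
open Pool.Agent.Helper5.ET (bb)
open Pool.Agent.Helper30.T5g (RT BP NL QT ez)
open Pool.Agent.Helper84.T5g Pool.Agent.Helper57.T5 Pool.Agent.Helper22.SL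
open Pool.Agent.Helper22.NEARsg Pool.Agent.Helper63.T5g Pool.Agent.Helper63.T5b
open Pool.Agent.Helper22.NEARg (wW lam RegE)
open Pool.Agent.Helper39.T5g (IrJ hIr_S F0_S)

variable {m : Sq} {k l : ℕ}

/-- the joint moduli of two consecutive numbers of split levels -/
theorem Jn_succ_QT (hm : m.Ok) {s x : ℕ} (h1 : Pool.Agent.Helper48.T5g.Cpl m k s x)
    (h2 : Pool.Agent.Helper48.T5g.Cpl m k (s + 1) x) :
    Jn m k s x = Jn m k (s + 1) x * QT m k (s + 1) := by
  have e1 := Pool.Agent.Helper27.T5g.Jn_mul_RT h1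
  have e2 := Pool.Agent.Helper27.T5g.Jn_mul_RT h2
  rw [Pool.Agent.Helper30.T5g.RT_succ] at e2
  have hR := Pool.Agent.Helper30.T5g.RT_pos m k s
  have e3 : Jn m k s x * RT m k s = (Jn m k (s + 1) x * QT m k (s + 1)) * RT m k s := by
    rw [e1, ← e2]
    ring
  exact Nat.eq_of_mul_eq_mul_right hR e3

/-- the quotient of the moduli of the lower state consists of its own families -/
theorem F'_div_lower (hm : m.Ok) {t l' l : ℕ} (h : PDs m k t l' l)
    (hS : Pool.Agent.Helper48.T5g.SplitP m k (sL m k l') l' l) (hbb : bb 0 ≤ mL m k l')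
    (o : JF → ℕ) (r : ℕ) : (PN m k t l' l o).F' r / (PN m k t l' l o).M' =
      NN (pJ k (sL m k l')) (fun i => aJ m k (sL m k l') (ez m (sL m k l - (t + r)) l') i -
        aJ m k (sL m k l') l' i) := by
  have e1 : (PN m k t l' l o).F' r = Jn m k (sL m k l) (ez m (sL m k l - (t + r)) l') := rfl
  have e2 : (PN m k t l' l o).M' = Jn m k (sL m k l) l' := rfl
  rw [e1, e2]
  have hs := h.sL_eq
  have ht := h.t1
  have hle : l' ≤ ez m (sL m k l - (t + r)) l' := (Pool.Agent.Helper30.T5g.lt_ez hm _ l').le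
  have c1 : Pool.Agent.Helper48.T5g.Cpl m k (sL m k l') (ez m (sL m k l - (t + r)) l') := by
    have e : ez m (sL m k l - (t + r)) l' = ef m k l' (t - 1 + r) := by
      unfold ef
      congr 1
      omega
    rw [e]
    exact Pool.Agent.Helper27.T5g.cpl_ef hm hbb _
  have c2 : Pool.Agent.Helper48.T5g.Cpl m k (sL m k l' + 1) (ez m (sL m k l - (t + r)) l') := by
    rw [hs]
    exact cplS_l hm h hS (t + r)
  have c3 := Pool.Agent.Helper27.T5g.cpl_self (k := k) hm hbb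
  have c4 : Pool.Agent.Helper48.T5g.Cpl m k (sL m k l' + 1) l' := by
    rw [hs]
    exact cplS hm h hS le_rfl (h.le.trans (Nat.le_add_right _ _))
  have f1 := Jn_succ_QT hm c1 c2
  have f2 := Jn_succ_QT hm c3 c4
  rw [hs] at f1 f2
  have hQ : 0 < QT m k (sL m k l) := Pool.Agent.Helper30.T5g.QT_pos _ _ _
  rw [← Nat.mul_div_mul_right _ _ hQ, ← f1, ← f2, Jn_split m k (sL m k l') hle]
  exact Nat.mul_div_cancel_left _ (Jn_pos _ _ _ _)

/-- the targets of a context -/
theorem tgS (hm : m.Ok) {t l' l : ℕ} (h : PDs m k t l' l)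
    (hS : Pool.Agent.Helper48.T5g.SplitP m k (sL m k l') l' l) {c0 : ℝ} (hL : LateN m k c0 l')
    {c : Cx} (hc : c ∈ Jx m k t l' l) :
    Tg (PN m k t l' l c.1) (nTx m k t l' l c) (XTx m k t l' l c) (IrJ m k l l' t) := by
  have hrb := Pool.Agent.Helper27.T5g.rL_bounds hm k l
  have htr := h.tr
  have hθ : c.2.1 ∈ Pool.Agent.Helper44.T5.Theta (pJ k (sL m k l))
      (Pool.Agent.Helper44.T5g.dJ m k l l' t) := by
    unfold Jx at hc
    exact (mem_product.1 (mem_product.1 hc).2).1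
  exact Pool.Agent.Helper39.SL.tg_XT (PNs_ok hm h hS hL c.1) (DJ_pos m k l l' t) (F0_S h hm)
    (dvd_mul_right _ _) (fun r _ x => hIr_S hm h.com (by omega) (by omega) hθ r x)

/-- **S7** -/
theorem pp_regS (m : Sq) (k : ℕ) (hm : m.Ok)
    [hQB : Pool.Agent.Helper30.T5g.BigQ m k] : PpRegS m k := by
  have hm0 := hm
  obtain ⟨l1, h1⟩ := exists_lateN hm k (1000 * Real.log (1152 * KG k))
  obtain ⟨l2, h2⟩ := Bw_lt_RT hm0 k
  obtain ⟨l3, h3⟩ := exists_splitP hm0 k
  refine ⟨max l1 (max l2 l3), fun t l' l hl' h hcase w hR hR' c hc => ?_⟩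
  simp only [max_le_iff] at hl'
  have hL := h1 l' hl'.1
  have hb2 := h2 l' hl'.2.1
  have hS := h3 l' l hl'.2.2 h.le h.near h.split
  have hs := h.sL_eq
  have hrl := h.rL_eq
  have ht1 := h.t1
  have hrb := Pool.Agent.Helper27.T5g.rL_bounds hm0 k l
  have hX := numXS hm0 h hS hL c.1
  have hh1 : 1 ≤ (PN m k t l' l c.1).h := Pool.Agent.Helper22.NEARg.hb_pos m k t l' l
  obtain ⟨r, hr⟩ : ∃ r, (PN m k t l' l c.1).h = r + 1 :=
    ⟨(PN m k t l' l c.1).h - 1, by omega⟩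
  have hNL := hX.toNum.toL hr
  have hsb : sb m k t l' l = t + (PN m k t l' l c.1).h := rfl
  have hsb1 : sb m k t l' l ≤ rL m k l := Pool.Agent.Helper22.NEARg.hb_le h.tr
  have hsb2 : 2 ≤ sb m k t l' l := by omega
  obtain ⟨Q, hQ, hB⟩ := hR
  obtain ⟨Q', hQ', hB'⟩ := hR'
  rw [h.wW_eq (by omega)] at hB'
  have hbLs : bL m k l' ≤ sL m k l - sb m k t l' l := by
    have := h.bL_eq
    omega
  refine Pool.Agent.Helper45.T5b.hL_reg (N := wW m k l (sb m k t l' l)) hNL (PNs_ok hm0 h hS hL c.1)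
    (tgS hm0 h hS hL hc) hh1 hB hB'
    (B0 := 17 * RT m k (sL m k l' - (sb m k t l' l - 1))) ?_
    (fun b hb => hb2 _ (by omega) (by omega) w b hb) ?_ ?_ (IJS_le hm0 h hS |>
      le_trans (by exact_mod_cast Pool.Agent.Helper39.SL.nT_le _ _ _ _ _ _)) (big_wW hL hbLs)
  · rw [F'_div_lower hm0 h hS hL.bb]
    unfold NN
    refine Nat.Coprime.prod_left fun i _ => ?_
    exact hQ' i _
  · have e : sL m k l' - (sb m k t l' l - 1) = sL m k l - sb m k t l' l := by omega
    rw [e]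
    exact RT17_le hm0 k _
  · have h7 : 7 * (wW m k l (sb m k t l' l) : ℝ) ≤ 20 * ((l - l' : ℕ) : ℝ) := by
      exact_mod_cast hcase
    have h8 := lg_ge m k h.le
    have hlam1 := Pool.Agent.Helper63.T5.lam_gt
    have hlam0 : (0 : ℝ) ≤ Pool.Agent.Helper63.T5.lam := by linarith
    calc 0.35 * ((wW m k l (sb m k t l' l) : ℝ) * Pool.Agent.Helper63.T5.lam)
        = (0.35 * (wW m k l (sb m k t l' l) : ℝ)) * Pool.Agent.Helper63.T5.lam := by ring
      _ ≤ ((l - l' : ℕ) : ℝ) * Pool.Agent.Helper63.T5.lam :=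
          mul_le_mul_of_nonneg_right (by linarith) hlam0
      _ ≤ _ := h8

end Pool.Agent.Helper45.T5g
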