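import Pool.Agent.Helper45.T5g.S7

/-!
# T5g: regular windows across SPLIT, abstract form (no common front, factor `CI` in the labels)
-/

set_option autoImplicit false

namespace Pool.Agent.Helper45.T5g

open Finset Pool.Agent.Helper27.T4 Pool.Agent.Helper37.T5g
open Pool.Agent.Helper5.ET (bb)
open Pool.Agent.Helper30.T5g (RT BP NL QT ez)
open Pool.Agent.Helper84.T5g Pool.Agent.Helper57.T5 Pool.Agent.Helper22.SL
open Pool.Agent.Helper63.T5g Pool.Agent.Helper63.T5b Pool.Agent.Helper87.SL Pool.Agent.Helper45.T5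
open Pool.Agent.Helper22.NEARg (wW RegE)
open Pool.Agent.Helper63.T5 (lam lam_gt lam_lt)

variable {m : Sq} {k l : ℕ}

theorem hL_regC {κ : Type*} {P : Pr κ} {Mk : κ → ℕ} {I : ℕ} {X Ir : ℕ → ℕ} {D W0 s s' K CI : ℝ}
    {N : ℕ} (h : NumL P D ((N : ℝ) * lam) W0 s s' K) (hP : P.Ok Mk) (hX : Tg P I X Ir)
    (hh : 1 ≤ P.h) {B B' : Finset ℕ} {B0 Q Q' : ℕ}
    (hB : RegSet B Q (Real.exp ((N : ℝ) / 10000))
      (Real.exp ((N : ℝ) * lam / 2 - (N : ℝ) / 10000)))
    (hB' : RegSet B' Q' (Real.exp ((N : ℝ) / 10000))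
      (Real.exp ((N : ℝ) * lam / 2 - (N : ℝ) / 10000)))
    (hcop : (P.F' P.h / P.M').Coprime Q') (hb' : ∀ b ∈ B', b < B0)
    (hB0 : (B0 : ℝ) ≤ Real.exp ((N : ℝ) * lam + (N : ℝ) / 10000))
    (hD : 0.35 * ((N : ℝ) * lam) ≤ D) (hCI : 0 < CI) (hI : (I : ℝ) ≤ CI * Real.exp (D / 2))
    (hbig : 1000 * Real.log (1152 * (CI * K)) ≤ N) :
    PP P I X B B' * P.A P.h * P.pc P.h ≤ Real.exp (-((N : ℝ) / 200)) := by
  have hlam1 := lam_gt
  have hN0 : (0 : ℝ) ≤ N := Nat.cast_nonneg N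
  have hmain := h.hL hP hX hh (B := B) (B' := B') (B0 := B0) (η := (N : ℝ) / 10000)
    (Real.exp_pos _).le (Real.exp_pos _).le (by positivity) hB hB' hcop
    (by
      apply Real.exp_le_exp.2
      linarith) (by
      apply Real.exp_le_exp.2
      linarith) hb' hB0 hD hCI.le hI
  refine hmain.trans ?_
  have hK := h.K1
  have hK0 : 0 < K := by linarith
  have hlog : Real.exp (Real.log (1152 * (CI * K))) = 1152 * (CI * K) :=
    Real.exp_log (by positivity)
  calc 1152 * (CI * K * Real.exp ((N : ℝ) / 10000) * Real.exp ((N : ℝ) / 10000)) *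
        Real.exp (4 * ((N : ℝ) / 10000)) * Real.exp (-(D / 400))
      = Real.exp (Real.log (1152 * (CI * K))) * Real.exp ((N : ℝ) / 10000) *
          Real.exp ((N : ℝ) / 10000) * Real.exp (4 * ((N : ℝ) / 10000)) *
            Real.exp (-(D / 400)) := by
        rw [hlog]; ring
    _ = Real.exp (Real.log (1152 * (CI * K)) + (N : ℝ) / 10000 + (N : ℝ) / 10000 +
          4 * ((N : ℝ) / 10000) + -(D / 400)) := by
        rw [Real.exp_add, Real.exp_add, Real.exp_add, Real.exp_add]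
    _ ≤ Real.exp (-((N : ℝ) / 200)) := by
        apply Real.exp_le_exp.2
        have a2 : 0.35 * ((N : ℝ) * 13) ≤ D := by
          refine le_trans ?_ hD
          have : (N : ℝ) * 13 ≤ (N : ℝ) * lam := mul_le_mul_of_nonneg_left hlam1.le hN0
          linarith
        linarith

/-- the quotient of the moduli of the lower state consists of its own families (`s` the number of
the upper state) -/
theorem Jn_div_lower (hm : m.Ok) {l' l : ℕ} (hl : l' ≤ l) (hs : sL m k l' + 1 = sL m k l)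
    (hS : Pool.Agent.Helper48.T5g.SplitP m k (sL m k l') l' l) (hbb : bb 0 ≤ mL m k l')
    {u : ℕ} (hu : 1 ≤ u) :
    Jn m k (sL m k l) (ez m (sL m k l - u) l') / Jn m k (sL m k l) l' =
      NN (pJ k (sL m k l')) (fun i => aJ m k (sL m k l') (ez m (sL m k l - u) l') i -
        aJ m k (sL m k l') l' i) := by
  have hle : l' ≤ ez m (sL m k l - u) l' := (Pool.Agent.Helper30.T5g.lt_ez hm _ l').le
  have c0 : ∀ x, l' ≤ x → x ≤ l + SS m (sL m k l) →
      Pool.Agent.Helper48.T5g.Cpl m k (sL m k l) x := by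
    intro x h1 h2
    have h3 := (hS.win x h1 (by rw [hs]; exact h2)).cpl_succ hm le_rfl
    rw [hs] at h3
    exact h3
  have c1 : Pool.Agent.Helper48.T5g.Cpl m k (sL m k l') (ez m (sL m k l - u) l') := by
    have e : ez m (sL m k l - u) l' = ef m k l' (u - 1) := by
      unfold ef
      congr 1
      omega
    rw [e]
    exact Pool.Agent.Helper27.T5g.cpl_ef hm hbb _
  have c2 : Pool.Agent.Helper48.T5g.Cpl m k (sL m k l' + 1) (ez m (sL m k l - u) l') := by
    rw [hs]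
    refine c0 _ hle ?_
    refine (Pool.Agent.Helper30.T5g.ez_mono m _ hl).trans ((ez_le_add_SS hm _ l).trans ?_)
    have := SS_mono m (Nat.sub_le (sL m k l) u)
    omega
  have c3 := Pool.Agent.Helper27.T5g.cpl_self (k := k) hm hbb
  have c4 : Pool.Agent.Helper48.T5g.Cpl m k (sL m k l' + 1) l' := by
    rw [hs]
    exact c0 _ le_rfl (hl.trans (Nat.le_add_right _ _))
  have f1 := Jn_succ_QT hm c1 c2
  have f2 := Jn_succ_QT hm c3 c4
  rw [hs] at f1 f2
  have hQ : 0 < QT m k (sL m k l) := Pool.Agent.Helper30.T5g.QT_pos _ _ _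
  rw [← Nat.mul_div_mul_right _ _ hQ, ← f1, ← f2, Jn_split m k (sL m k l') hle]
  exact Nat.mul_div_cancel_left _ (Jn_pos _ _ _ _)

/-- **regular windows across SPLIT** for any system whose lower moduli at the windows are those of
the pair; `sb` is the index of the windows (for `l`) -/
theorem pp_regA (hm : m.Ok) (k : ℕ) {CI K : ℝ} (hCI : 0 < CI)
    [hQB : Pool.Agent.Helper30.T5g.BigQ m k] :
    ∃ K0 : ℕ, ∀ l' l, K0 ≤ l' → l' ≤ l → Near m k l' l → Split m k l' l →
      ∀ sb, 2 ≤ sb → sb ≤ rL m k l → 7 * wW m k l sb ≤ 20 * (l - l') →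
      ∀ w : Key → ℕ, RegE m k l sb w → RegE m k l' (sb - 1) w →
      ∀ (κ : Type) (P : Pr κ) (MM : κ → ℕ) (J : ℕ) (X Ir : ℕ → ℕ) (W0 s s' : ℝ),
      NumL P (lg m k l - lg m k l') ((wW m k l sb : ℝ) * lam) W0 s s' K → P.Ok MM →
      Tg P J X Ir → 1 ≤ P.h → P.M' = Jn m k (sL m k l) l' →
      P.F' P.h = Jn m k (sL m k l) (ez m (sL m k l - sb) l') →
      (J : ℝ) ≤ CI * Real.exp ((lg m k l - lg m k l') / 2) →
      PP P J X (Pool.Agent.Helper22.NEARg.Bw m k l sb w)
          (Pool.Agent.Helper22.NEARg.Bw m k l' (sb - 1) w) * P.A P.h * P.pc P.h ≤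
        Real.exp (-((wW m k l sb : ℝ) / 200)) := by
  have hm0 := hm
  obtain ⟨l1, h1⟩ := exists_lateN hm k (1000 * Real.log (1152 * (CI * K)))
  obtain ⟨l2, h2⟩ := Bw_lt_RT hm0 k
  obtain ⟨l3, h3⟩ := exists_splitP hm0 k
  refine ⟨max l1 (max l2 l3), fun l' l hl' hle hN hSp sb hsb2 hsb1 hcase w hR hR' κ P MM J X Ir W0
    s s' hNL hP hX hh hM' hF' hJ => ?_⟩
  simp only [max_le_iff] at hl'
  have hL := h1 l' hl'.1
  have hb2 := h2 l' hl'.2.1
  have hS := h3 l' l hl'.2.2 hle hN hSp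
  have hs : sL m k l' + 1 = sL m k l := hSp.1
  have hbL : bL m k l' = bL m k l := hSp.2
  have hrb := Pool.Agent.Helper27.T5g.rL_bounds hm0 k l
  have hrl : rL m k l' + 1 = rL m k l := by
    unfold rL at hsb1 ⊢
    omega
  obtain ⟨Q, hQ, hB⟩ := hR
  obtain ⟨Q', hQ', hB'⟩ := hR'
  have hwe : wW m k l' (sb - 1) = wW m k l sb := by
    unfold wW
    congr 1
    omega
  rw [hwe] at hB'
  have hbLs : bL m k l' ≤ sL m k l - sb := by
    unfold rL at hsb1
    omega
  refine hL_regC (N := wW m k l sb) hNL hP hX hh hB hB'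
    (B0 := 17 * RT m k (sL m k l' - (sb - 1))) ?_
    (fun b hb => hb2 _ (by omega) (by omega) w b hb) ?_ ?_ hCI hJ (big_wW hL hbLs)
  · rw [hF', hM', Jn_div_lower hm0 hle hs hS hL.bb (by omega : 1 ≤ sb)]
    unfold NN
    refine Nat.Coprime.prod_left fun i _ => ?_
    exact hQ' i _
  · have e : sL m k l' - (sb - 1) = sL m k l - sb := by omega
    rw [e]
    exact RT17_le hm0 k _
  · have h7 : 7 * (wW m k l sb : ℝ) ≤ 20 * ((l - l' : ℕ) : ℝ) := by
      exact_mod_cast hcase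
    have h8 := lg_ge m k hle
    have hlam1 := lam_gt
    have hlam0 : (0 : ℝ) ≤ lam := by linarith
    calc 0.35 * ((wW m k l sb : ℝ) * lam)
        = (0.35 * (wW m k l sb : ℝ)) * lam := by ring
      _ ≤ ((l - l' : ℕ) : ℝ) * lam :=
          mul_le_mul_of_nonneg_right (by linarith) hlam0
      _ ≤ _ := h8

end Pool.Agent.Helper45.T5g
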